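import Mathlib

/-!
# Retractional skeletons without a common subskeleton

For every retractional skeleton there is another one that induces the same set, but has no common
subskeleton with it: the index set is multiplied by a long regular cardinal.
-/

open Set Filter Topology Cardinal

universe u v

namespace Pool.Agent.Results.MP_fb95e7_gt.NoCommon

/-- `(r s)_{s ∈ Γ}` is a retractional skeleton on the space `K`. -/
structure RetractionalSkeleton {K : Type*} [TopologicalSpace K] {Γ : Type*} [PartialOrder Γ]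
    (r : Γ → K → K) : Prop where
  nonempty : Nonempty Γ
  directed : ∀ s t : Γ, ∃ w, s ≤ w ∧ t ≤ w
  sigmaComplete : ∀ s : ℕ → Γ, Monotone s → ∃ t, IsLUB (range s) t
  continuous : ∀ s, Continuous (r s)
  retraction : ∀ s, r s ∘ r s = r s
  metrizable : ∀ s, TopologicalSpace.MetrizableSpace (range (r s))
  comp : ∀ s t, s ≤ t → r s = r s ∘ r t ∧ r s = r t ∘ r s
  seq_lim : ∀ s : ℕ → Γ, StrictMono s → ∀ t, IsLUB (range s) t → ∀ x,
    Tendsto (fun n => r (s n) x) atTop (𝓝 (r t x))
  lim : ∀ x, Tendsto (fun s => r s x) atTop (𝓝 x)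

/-- the set induced by the skeleton -/
def induced {K : Type*} {Γ : Type*} (r : Γ → K → K) : Set K := ⋃ s, range (r s)

/-- `(R i)_{i ∈ Λ}` is, up to re-indexing along an order isomorphism of `Λ` onto a `σ`-closed cofinal
subset of `Γ`, a subskeleton of `(r s)_{s ∈ Γ}`. -/
def IsSubskeleton {K : Type*} {Γ : Type*} [PartialOrder Γ] {Λ : Type*} [PartialOrder Λ]
    (R : Λ → K → K) (r : Γ → K → K) : Prop :=
  ∃ Γ' : Set Γ, (∀ s, ∃ t ∈ Γ', s ≤ t) ∧
    (∀ s : ℕ → Γ, Monotone s → (∀ n, s n ∈ Γ') → ∀ t, IsLUB (range s) t → t ∈ Γ') ∧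
    ∃ φ : Λ ≃o Γ', ∀ i, R i = r (φ i)

section

variable {K : Type*} [TopologicalSpace K] {Γ : Type*} [PartialOrder Γ] {r : Γ → K → K}

lemma mono_lim (h : RetractionalSkeleton r) {s : ℕ → Γ} (hs : Monotone s) {t : Γ}
    (ht : IsLUB (range s) t) (x : K) : Tendsto (fun n => r (s n) x) atTop (𝓝 (r t x)) := by
  by_cases hc : ∃ N, ∀ n, N ≤ n → s n = s N
  · obtain ⟨N, hN⟩ := hc
    have h1 : t = s N := by
      apply le_antisymm
      · apply ht.2
        rintro _ ⟨n, rfl⟩
        rcases le_total n N with h | h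
        · exact hs h
        · rw [hN n h]
      · exact ht.1 ⟨N, rfl⟩
    rw [h1]
    refine tendsto_const_nhds.congr' ?_
    filter_upwards [eventually_ge_atTop N] with n hn
    rw [hN n hn]
  · push Not at hc
    have h1 : ∀ N, ∃ n, N < n ∧ s N < s n := by
      intro N
      obtain ⟨n, hn, hne⟩ := hc N
      refine ⟨n, lt_of_le_of_ne hn ?_, lt_of_le_of_ne (hs hn) (Ne.symm hne)⟩
      rintro rfl
      exact hne rfl
    refine tendsto_of_subseq_tendsto fun ns hns => ?_
    have h2 : ∀ k, ∃ k', k < k' ∧ s (ns k) < s (ns k') := by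
      intro k
      obtain ⟨n, -, hn⟩ := h1 (ns k)
      obtain ⟨k', hk1, hk2⟩ := ((hns.eventually_ge_atTop n).and (eventually_gt_atTop k)).exists
      exact ⟨k', hk2, hn.trans_le (hs hk1)⟩
    choose g hg1 hg2 using h2
    let ms : ℕ → ℕ := fun n => g^[n] 0
    have hms : ∀ n, ms (n + 1) = g (ms n) := fun n => Function.iterate_succ_apply' g n 0
    have hmono : StrictMono ms := strictMono_nat_of_lt_succ fun n => by rw [hms]; exact hg1 _
    have hsm : StrictMono fun n => s (ns (ms n)) :=
      strictMono_nat_of_lt_succ fun n => by rw [hms]; exact hg2 _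
    refine ⟨ms, ?_⟩
    refine h.seq_lim (fun n => s (ns (ms n))) hsm t ?_ x
    constructor
    · rintro _ ⟨n, rfl⟩
      exact ht.1 ⟨_, rfl⟩
    · intro b hb
      apply ht.2
      rintro _ ⟨n, rfl⟩
      obtain ⟨k, hk⟩ := ((hns.comp hmono.tendsto_atTop).eventually_ge_atTop n).exists
      exact (hs hk).trans (hb ⟨k, rfl⟩)

end

section Long

/-- the initial ordinal of the successor of a cardinal -/
abbrev Long (μ : Cardinal.{u}) : Type u := (Order.succ μ).ord.ToType

lemma bounded {μ : Cardinal.{u}} (hμ : ℵ₀ ≤ μ) (S : Set (Long μ)) (hS : #S ≤ μ) :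
    ∃ b, ∀ s ∈ S, s < b := by
  by_contra hcon
  push Not at hcon
  have h1 : (⋃ s : S, Iic (s : Long μ)) = Set.univ := by
    rw [Set.eq_univ_iff_forall]
    intro b
    obtain ⟨s, hs, hbs⟩ := hcon b
    exact mem_iUnion.2 ⟨⟨s, hs⟩, hbs⟩
  have h2 : ∀ s : Long μ, #(Iic s) ≤ μ := by
    intro s
    have h3 : #(Iio s) < Order.succ μ := by
      have := mk_Iio_lt (α := Long μ) s (by
        rw [mk_ord_toType]
        exact (Ordinal.type_toType _).symm)
      rwa [mk_ord_toType] at this
    have h4 : #(Iio s) ≤ μ := Order.lt_succ_iff.1 h3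
    have h5 : (Iic s : Set (Long μ)) ⊆ insert s (Iio s) := by
      intro t ht
      rcases eq_or_lt_of_le (mem_Iic.1 ht) with h | h
      · exact Or.inl h
      · exact Or.inr h
    refine (mk_le_mk_of_subset h5).trans ((mk_insert_le).trans ?_)
    exact (add_le_add h4 (one_le_aleph0.trans hμ)).trans (add_eq_self hμ).le
  have h6 : #(Long μ) ≤ μ := by
    rw [← mk_univ, ← h1]
    refine (mk_iUnion_le _).trans ?_
    refine (mul_le_mul' hS (ciSup_le' fun s : S => h2 s)).trans (mul_eq_self hμ).le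
  rw [mk_ord_toType] at h6
  exact absurd h6 (not_le.2 (Order.lt_succ μ))

lemma exists_lub {μ : Cardinal.{u}} (hμ : ℵ₀ ≤ μ) (s : ℕ → Long μ) : ∃ t, IsLUB (range s) t := by
  have hc : #(range s) ≤ μ := ((countable_range s).le_aleph0).trans hμ
  obtain ⟨b, hb⟩ := bounded hμ (range s) hc
  have hne : (upperBounds (range s)).Nonempty := ⟨b, fun x hx => (hb x hx).le⟩
  refine ⟨WellFounded.min (wellFounded_lt (α := Long μ)) _ hne,
    WellFounded.min_mem wellFounded_lt _ hne, fun c hc => ?_⟩
  exact not_lt.1 (WellFounded.not_lt_min wellFounded_lt _ hc)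

end Long

theorem no_common (K : Type u) [TopologicalSpace K]
    (Γ : Type u) [PartialOrder Γ] (r : Γ → K → K) (hr : RetractionalSkeleton r) :
    ∃ (Δ : Type u) (_ : PartialOrder Δ) (r' : Δ → K → K), RetractionalSkeleton r' ∧
      induced r' = induced r ∧
      ¬ ∃ (Λ : Type v) (_ : PartialOrder Λ) (R : Λ → K → K),
        RetractionalSkeleton R ∧ IsSubskeleton R r ∧ IsSubskeleton R r' := by
  let μ : Cardinal.{u} := max #Γ ℵ₀
  have hμ : ℵ₀ ≤ μ := le_max_right _ _
  have : Nonempty Γ := hr.nonempty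
  obtain ⟨b0, -⟩ := bounded hμ (∅ : Set (Long μ)) (by simp)
  have : Nonempty (Long μ) := ⟨b0⟩
  refine ⟨Γ × Long μ, inferInstance, fun p => r p.1, ?_, ?_, ?_⟩
  · refine ⟨inferInstance, ?_, ?_, fun p => hr.continuous p.1, fun p => hr.retraction p.1,
      fun p => hr.metrizable p.1, fun p q h => hr.comp _ _ h.1, ?_, ?_⟩
    · rintro ⟨s, a⟩ ⟨t, b⟩
      obtain ⟨w, hw1, hw2⟩ := hr.directed s t
      exact ⟨(w, max a b), ⟨hw1, le_max_left _ _⟩, ⟨hw2, le_max_right _ _⟩⟩
    · intro s hs
      obtain ⟨t, ht⟩ := hr.sigmaComplete (fun n => (s n).1) fun i j h => (hs h).1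
      obtain ⟨b, hb⟩ := exists_lub hμ fun n => (s n).2
      refine ⟨(t, b), isLUB_prod.2 ⟨?_, ?_⟩⟩
      · rw [← range_comp]; exact ht
      · rw [← range_comp]; exact hb
    · intro s hs t ht x
      have h1 := (isLUB_prod.1 ht).1
      rw [← range_comp] at h1
      exact mono_lim hr (s := fun n => (s n).1) (fun i j h => (hs.monotone h).1) h1 x
    · intro x
      have h1 : Tendsto (Prod.fst : Γ × Long μ → Γ) atTop atTop := by
        rw [← prod_atTop_atTop_eq]
        exact tendsto_fst
      exact (hr.lim x).comp h1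
  · unfold induced
    ext x
    simp only [mem_iUnion]
    exact ⟨fun ⟨p, hp⟩ => ⟨p.1, hp⟩, fun ⟨s, hs⟩ => ⟨(s, b0), hs⟩⟩
  · rintro ⟨Λ, _, R, -, ⟨Γ₁, -, -, φ, -⟩, ⟨Γ₂, hcof, -, ψ, -⟩⟩
    -- second coordinates of the cofinal set
    let f : Γ → Long μ := fun s => by
      classical
      exact if h : s ∈ Γ₁ then ((ψ (φ.symm ⟨s, h⟩) : Γ₂) : Γ × Long μ).2 else b0
    obtain ⟨b, hb⟩ := bounded hμ (range f) (mk_range_le.trans (le_max_left _ _))
    obtain ⟨s0⟩ := hr.nonempty
    obtain ⟨p, hp, hle⟩ := hcof (s0, b)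
    have h1 : f ((φ (ψ.symm ⟨p, hp⟩) : Γ₁) : Γ) = p.2 := by
      simp only [f]
      rw [dif_pos (φ (ψ.symm ⟨p, hp⟩)).2]
      simp
    have h2 := hb p.2 ⟨_, h1⟩
    exact absurd hle.2 (not_le.2 h2)

/-- The identity is a retractional skeleton on a compact metrizable space. -/
theorem trivial_skeleton (K : Type u) [TopologicalSpace K] [TopologicalSpace.MetrizableSpace K] :
    RetractionalSkeleton (fun (_ : PUnit.{u + 1}) (x : K) => x) where
  nonempty := inferInstance
  directed := fun _ _ => ⟨PUnit.unit, le_rfl, le_rfl⟩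
  sigmaComplete := fun _ _ => ⟨PUnit.unit, fun _ _ => le_rfl, fun _ _ => le_rfl⟩
  continuous := fun _ => continuous_id
  retraction := fun _ => rfl
  metrizable := fun _ => inferInstance
  comp := fun _ _ _ => ⟨rfl, rfl⟩
  seq_lim := fun _ _ _ _ _ => tendsto_const_nhds
  lim := fun _ => tendsto_const_nhds

/-- The answer to the question is negative for every compact space `K` that has a retractional
skeleton (in particular for every compact metrizable space): for each retractional skeleton `r` on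
`K` there is a retractional skeleton `r'` on `K` that induces the same set, such that no
retractional skeleton on `K` is a common subskeleton of `r` and `r'`. -/
theorem result :
    (∀ (K : Type u) [TopologicalSpace K] [CompactSpace K] [TopologicalSpace.MetrizableSpace K],
      ∃ (Γ : Type u) (_ : PartialOrder Γ) (r : Γ → K → K), RetractionalSkeleton r) ∧
    ∀ (K : Type u) [TopologicalSpace K] [CompactSpace K] [T2Space K]
      (Γ : Type u) [PartialOrder Γ] (r : Γ → K → K), RetractionalSkeleton r →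
      ∃ (Δ : Type u) (_ : PartialOrder Δ) (r' : Δ → K → K), RetractionalSkeleton r' ∧
        induced r' = induced r ∧
        ¬ ∃ (Λ : Type v) (_ : PartialOrder Λ) (R : Λ → K → K),
          RetractionalSkeleton R ∧ IsSubskeleton R r ∧ IsSubskeleton R r' :=
  ⟨fun K _ _ _ => ⟨PUnit, inferInstance, _, trivial_skeleton K⟩,
    fun K _ _ _ Γ _ r hr => no_common K Γ r hr⟩

end Pool.Agent.Results.MP_fb95e7_gt.NoCommon
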